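import Mathlib

/-!
# Squad BAI (MP_5a6e11_an, S04750): definitions

The counterexample space is `K`: triples (x, w, z) of 0-1 families, indexed by `B = ℕ ⊕ J` and `T`.
-/

set_option autoImplicit false

open MeasureTheory Filter Topology
open scoped ENNReal

namespace Pool.Agent.Helper7_BAI

/-- The first `n` bits of a 0-1 sequence. -/
def res (n : ℕ) (x : ℕ → Bool) : Fin n → Bool := fun i => x i

/-- Pairs (n, c) with c a set of at most n^2 words of length n. -/
abbrev J : Type := Σ n : ℕ, {c : Finset (Fin n → Bool) // c.card ≤ n ^ 2}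

/-- Sequences of 0-1 sequences. -/
abbrev T : Type := ℕ → ℕ → Bool

/-- The base coordinates: `Sum.inl l` is the l-th bit of x, `Sum.inr j` the j-th bit of w. -/
abbrev B : Type := ℕ ⊕ J

/-- At most one of the bits `w j` is on. -/
def Yc : Set (B → Bool) :=
  {y | ∀ j j' : J, y (Sum.inr j) = true → y (Sum.inr j') = true → j = j'}

/-- The open set attached to `X`: either x agrees with `X i` on i+2 bits, for some i with
i + 2 at most the level of w; or w is the point j = (n, c) and c omits some `res n (X i)`, i ≤ n. -/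
def G (X : T) : Set (B → Bool) :=
  {y | (∃ i : ℕ, (∀ j : J, y (Sum.inr j) = true → i + 2 ≤ j.1) ∧
          ∀ l : ℕ, l < i + 2 → y (Sum.inl l) = X i l) ∨
       ∃ j : J, y (Sum.inr j) = true ∧ ∃ i ≤ j.1, res j.1 (X i) ∉ j.2.1}

/-- The compact space, as a subset of a Boolean cube. -/
def KSet : Set ((B → Bool) × (T → Bool)) :=
  {k | k.1 ∈ Yc ∧ ∀ X : T, k.2 X = true → k.1 ∉ G X}

/-- The compact space. -/
abbrev K : Type := KSet

/-- The pathological filter. -/
def Fil : Filter J where
  sets := {Z | ∃ k n0 : ℕ, ∀ n ≥ n0, ∃ P : Finset (Fin n → Bool), P.card ≤ k * (n + 1) ∧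
    ∀ c : {c : Finset (Fin n → Bool) // c.card ≤ n ^ 2}, P ⊆ c.1 → (⟨n, c⟩ : J) ∈ Z}
  univ_sets := ⟨0, 0, fun n _ => ⟨∅, by simp, fun _ _ => trivial⟩⟩
  sets_of_superset := by
    rintro Z Z' ⟨k, n0, h⟩ hZ
    exact ⟨k, n0, fun n hn => by
      obtain ⟨P, hP, hc⟩ := h n hn
      exact ⟨P, hP, fun c hPc => hZ (hc c hPc)⟩⟩
  inter_sets := by
    rintro Z Z' ⟨k, n0, h⟩ ⟨k', n0', h'⟩
    refine ⟨k + k', max n0 n0', fun n hn => ?_⟩
    obtain ⟨P, hP, hc⟩ := h n (le_trans (le_max_left _ _) hn)
    obtain ⟨P', hP', hc'⟩ := h' n (le_trans (le_max_right _ _) hn)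
    refine ⟨P ∪ P', ?_, fun c hPc => ⟨hc c ?_, hc' c ?_⟩⟩
    · refine (Finset.card_union_le _ _).trans ?_
      rw [add_mul]
      exact add_le_add hP hP'
    · exact Finset.union_subset_left hPc
    · exact Finset.union_subset_right hPc

/-- The continuous indicator function of a clopen set. -/
noncomputable def ind {K' : Type} [TopologicalSpace K'] (U : Set K') (hU : IsClopen U) : C(K', ℝ) where
  toFun := U.indicator (fun _ => (1 : ℝ))
  continuous_toFun := by
    refine continuous_const.indicator ?_
    intro a ha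
    rw [hU.frontier_eq] at ha
    exact absurd ha (Set.notMem_empty a)

/-- The fair coin. -/
noncomputable def coin : Measure Bool := (2⁻¹ : ℝ≥0∞) • (Measure.dirac true + Measure.dirac false)

instance : IsProbabilityMeasure coin := by
  constructor
  simp only [coin, Measure.smul_apply, Measure.add_apply, Measure.dirac_apply' _ MeasurableSet.univ,
    Set.indicator_univ, Pi.one_apply, smul_eq_mul]
  rw [one_add_one_eq_two]
  exact ENNReal.inv_mul_cancel (by norm_num) (by norm_num)

/-- A subset of a Boolean cube that depends on finitely many coordinates. -/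
def FinDet {D : Type} (E : Set (D → Bool)) : Prop :=
  ∃ b : Finset D, ∀ u v : D → Bool, (∀ d ∈ b, u d = v d) → (u ∈ E ↔ v ∈ E)

/-- The finite random object that replaces (I × ℕ → Bool) at precision M. -/
abbrev V (M : ℕ) : Type := (Fin M → Bool) → Fin M → Bool

/-- The hashing map. -/
def uh {I : Type} (τ : I → ℕ → Bool) (M : ℕ) (v : V M) : I × ℕ → Bool :=
  fun p => if h : p.2 < M then v (res M (τ p.1)) ⟨p.2, h⟩ else false

/-- The frequency, among the hashed points of precision M, of the points in E. -/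
noncomputable def freq {I : Type} (τ : I → ℕ → Bool) (M : ℕ) (E : Set (I × ℕ → Bool)) : ℝ :=
  (∑ v : V M, E.indicator (fun _ => (1 : ℝ)) (uh τ M v)) / Fintype.card (V M)

/-- The clopen set {z_X = 1, level ≥ m}. -/
def Uset (X : T) (m : ℕ) : Set K :=
  {k | k.1.2 X = true ∧ ∀ j : J, k.1.1 (Sum.inr j) = true → m ≤ j.1}

/-- The product coin measure. -/
noncomputable abbrev coins (D : Type) : Measure (D → Bool) := Measure.infinitePi (fun _ : D => coin)

end Pool.Agent.Helper7_BAI
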