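import Mathlib
import Pool.Agent.Helper7_BAI.Defs

/-!
# Squad BAI (MP_5a6e11_an, S04750): module statements
-/

set_option autoImplicit false

open MeasureTheory Filter Topology
open scoped ENNReal

namespace Pool.Agent.Helper7_BAI

/-- COMP: topology of the space. -/
def CompStmt : Prop :=
  (∀ X : T, IsOpen (G X)) ∧ IsClosed Yc ∧ IsClosed KSet ∧ (∀ m : ℕ, {j : J | j.1 < m}.Finite) ∧
    (∀ (X : T) (m : ℕ), IsClopen (Uset X m))

/-- FILP: the filter. The last clause: `Fil` is a Borel filter. -/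
def FilpStmt : Prop :=
  Fil.NeBot ∧ Tendsto (fun j : J => j.1) Fil atTop ∧
  (∀ X : T, {j : J | ∀ i ≤ j.1, res j.1 (X i) ∈ j.2.1} ∈ Fil) ∧
  (∀ (Ω : Type) (m : MeasurableSpace Ω) (A : J → Set Ω), (∀ j, @MeasurableSet Ω m (A j)) →
    @MeasurableSet Ω m {ω | {j : J | ω ∈ A j} ∈ Fil})

/-- FLIM: limits along `Fil` of measurable real functions are measurable. -/
def FlimStmt : Prop :=
  ∀ (Ω : Type) (m : MeasurableSpace Ω) (g : J → Ω → ℝ) (g0 : Ω → ℝ),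
    (∀ j, @Measurable Ω ℝ m _ (g j)) → (∀ ω, Tendsto (fun j => g j ω) Fil (𝓝 (g0 ω))) →
    @Measurable Ω ℝ m _ g0

/-- RETR: the retractions of the space. -/
def RetrStmt : Prop :=
  ∃ R : J → C(K, K), (∀ (j : J) (k : K), ∃ j' : J, j'.1 ≤ j.1 ∧ (R j k).1.1 (Sum.inr j') = true) ∧
    ∀ (f : C(K, ℝ)) (ε : ℝ), 0 < ε → ∀ᶠ j in Fil, ∀ k : K, |f (R j k) - f k| < ε

/-- FIB: each fibre is a continuous retract of a Boolean cube. -/
def FibStmt : Prop :=
  ∀ j : J, IsClopen {k : K | k.1.1 (Sum.inr j) = true} ∧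
    ∃ (π : C(ℕ ⊕ T → Bool, K)) (ι : C(K, ℕ ⊕ T → Bool)),
    ∀ k : K, k.1.1 (Sum.inr j) = true → π (ι k) = k

/-- UNIF: coin tossing produces a uniform variable. -/
def UnifStmt : Prop :=
  ∃ θ : (ℕ → Bool) → ℝ, Measurable θ ∧ ∀ t : ℝ, 0 ≤ t → t ≤ 1 →
    (coins ℕ).real {u | θ u < t} = t

/-- REC: every law on a Boolean cube is the image of coin tossing. -/
def RecStmt : Prop :=
  ∀ (I : Type) (P : Measure (I → Bool)), IsProbabilityMeasure P →
    ∃ Ψ : (I × ℕ → Bool) → (I → Bool), Measurable Ψ ∧ (coins (I × ℕ)).map Ψ = P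

/-- FDM: finitely determined sets are clopen, measurable, and form an algebra. -/
def FdmStmt : Prop :=
  ∀ (D : Type),
    (∀ E : Set (D → Bool), FinDet E → MeasurableSet E) ∧
    (∀ E : Set (D → Bool), FinDet E → IsClopen E) ∧
    (∀ E : Set (D → Bool), FinDet E → FinDet Eᶜ) ∧
    (∀ E E' : Set (D → Bool), FinDet E → FinDet E' → FinDet (E ∩ E'))

/-- APX: finitely determined sets are dense. -/
def ApxStmt : Prop :=
  ∀ (D : Type) (P : Measure (D → Bool)), IsProbabilityMeasure P →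
    ∀ E : Set (D → Bool), MeasurableSet E → ∀ ε : ℝ, 0 < ε →
    ∃ E' : Set (D → Bool), FinDet E' ∧ P.real (symmDiff E E') < ε

/-- FIN: the finite models converge on finitely determined sets. -/
def FinStmt : Prop :=
  ∀ (I : Type) (τ : I → ℕ → Bool), Function.Injective τ →
    ∀ E : Set (I × ℕ → Bool), FinDet E →
      Tendsto (fun M => freq τ M E) atTop (𝓝 ((coins (I × ℕ)).real E))

/-- DIAG: the diagonal argument for one set. -/
def DiagStmt : Prop :=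
  ∀ (I : Type) (τ : I → ℕ → Bool), Function.Injective τ →
    ∀ Ψ : Set (I × ℕ → Bool), MeasurableSet Ψ →
    ∃ R : ℕ → Set (I × ℕ → Bool),
      ∀ ε : ℝ, 0 < ε → ∃ E : Set (I × ℕ → Bool), FinDet E ∧
        (coins (I × ℕ)).real (symmDiff Ψ E) < ε ∧
        ∀ᶠ M in atTop, freq τ M (symmDiff (R M) E) < ε

/-- LOS: (Losert) every law on a cube with at most continuum many coordinates is a limit of a
sequence of finitely supported laws. -/
def LosStmt : Prop :=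
  ∀ (I : Type) (τ : I → ℕ → Bool), Function.Injective τ →
    ∀ P : Measure (I → Bool), IsProbabilityMeasure P →
    ∃ t : ∀ M : ℕ, V M → (I → Bool), ∀ E : Set (I → Bool), FinDet E →
      Tendsto (fun M => (∑ v : V M, E.indicator (fun _ => (1 : ℝ)) (t M v)) / Fintype.card (V M))
        atTop (𝓝 (P.real E))

/-- RMKC: positive normalized functionals on C(2^I) are probability measures on the product
sigma-algebra. -/
def RmkcStmt : Prop :=
  ∀ (I : Type) (φ : C(I → Bool, ℝ) →L[ℝ] ℝ), (∀ f : C(I → Bool, ℝ), 0 ≤ f → 0 ≤ φ f) → φ 1 = 1 →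
    ∃ P : Measure (I → Bool), IsProbabilityMeasure P ∧
      ∀ (E : Set (I → Bool)) (hE : IsClopen E), FinDet E → P.real E = φ (ind E hE)

/-- STEP: continuous functions on a cube are uniform limits of step functions. -/
def StepStmt : Prop :=
  ∀ (I : Type) (f : C(I → Bool, ℝ)) (ε : ℝ), 0 < ε →
    ∃ (n : ℕ) (c : Fin n → ℝ) (E : Fin n → Set (I → Bool)) (hE : ∀ l, IsClopen (E l)),
      (∀ l, FinDet (E l)) ∧ ‖f - ∑ l, c l • ind (E l) (hE l)‖ < ε

/-- DEC: functionals on C(K') are differences of positive ones. -/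
def DecStmt : Prop :=
  ∀ (K' : Type) (_ : TopologicalSpace K') (_ : CompactSpace K') (φ : C(K', ℝ) →L[ℝ] ℝ),
    ∃ φ1 φ2 : C(K', ℝ) →L[ℝ] ℝ, (∀ f : C(K', ℝ), 0 ≤ f → 0 ≤ φ1 f) ∧
      (∀ f : C(K', ℝ), 0 ≤ f → 0 ≤ φ2 f) ∧ φ = φ1 - φ2

/-- CUBE: every functional on C(2^I) is measurable for the sigma-algebra generated by
evaluations. -/
def CubeStmt : Prop :=
  ∀ (I : Type) (τ : I → ℕ → Bool), Function.Injective τ →
    ∀ m : MeasurableSpace C(I → Bool, ℝ),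
      (∀ x : I → Bool, @Measurable _ _ m _ (fun f : C(I → Bool, ℝ) => f x)) →
      ∀ φ : C(I → Bool, ℝ) →L[ℝ] ℝ, @Measurable _ _ m _ (fun f : C(I → Bool, ℝ) => φ f)

/-- MEAS: every functional on C(K) is measurable for the sigma-algebra generated by evaluations. -/
def MeasStmt : Prop :=
  ∀ m : MeasurableSpace C(K, ℝ), (∀ x : K, @Measurable _ _ m _ (fun f : C(K, ℝ) => f x)) →
    ∀ φ : C(K, ℝ) →L[ℝ] ℝ, @Measurable _ _ m _ (fun f : C(K, ℝ) => φ f)

/-- EDG: (Edgar) weakly continuous functions are measurable for the sigma-algebra generated by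
the functionals. -/
def EdgStmt : Prop :=
  ∀ (E : Type) (_ : NormedAddCommGroup E) (_ : NormedSpace ℝ E) (m : MeasurableSpace E),
    (∀ φ : E →L[ℝ] ℝ, @Measurable _ _ m _ (fun f : E => φ f)) → ∀ g : E → ℝ,
      @Continuous E ℝ (⨅ (φ : E →L[ℝ] ℝ), TopologicalSpace.induced (⇑φ) inferInstance) _ g →
      @Measurable _ _ m _ g

/-- WILD: the wild measure. -/
def WildStmt : Prop :=
  ∃ φ : C(K, ℝ) →L[ℝ] ℝ, (∀ f : C(K, ℝ), 0 ≤ f → 0 ≤ φ f) ∧ φ 1 = 1 ∧
    ∀ (X : T) (m : ℕ) (hU : IsClopen (Uset X m)), 1 / 2 ≤ φ (ind (Uset X m) hU)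

/-- RAND: the random real. -/
def RandStmt : Prop :=
  ∀ α : ℕ → J → ℝ≥0∞, (∀ k, ∑' j, α k j ≤ 1) →
    ∃ x : ℕ → Bool, ∀ ε : ℝ≥0∞, 0 < ε → ∃ m0 : ℕ, ∀ m ≥ m0,
      ∃ᶠ k in atTop, ∑' j : J, ({j : J | m ≤ j.1 ∧ res j.1 x ∈ j.2.1}.indicator (α k) j) < ε

/-- SEQ: the members of the sequential closure of co(Delta_K) vanish at infinity on some z_X. -/
def SeqStmt : Prop :=
  ∀ φ ∈ ⋂₀ {S : Set (C(K, ℝ) →L[ℝ] ℝ) |
      convexHull ℝ {φ : C(K, ℝ) →L[ℝ] ℝ | ∃ x : K, ∀ f : C(K, ℝ), φ f = f x} ⊆ S ∧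
      ∀ (u : ℕ → C(K, ℝ) →L[ℝ] ℝ) (φ : C(K, ℝ) →L[ℝ] ℝ), (∀ n, u n ∈ S) →
        (∀ f : C(K, ℝ), Filter.Tendsto (fun n => u n f) Filter.atTop (nhds (φ f))) →
        φ ∈ S},
    ∃ (X : T) (m : ℕ), ∀ hU : IsClopen (Uset X m), φ (ind (Uset X m) hU) < 1 / 2

end Pool.Agent.Helper7_BAI
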