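import Mathlib
import Pool.Agent.Helper7_BAI.Stmt

/-!
# Squad BAI: assembly of S04750 from the module statements
-/

set_option autoImplicit false

open MeasureTheory Filter Topology

namespace Pool.Agent.Helper7_BAI

theorem main_of [CompactSpace K] (hmeas : MeasStmt) (hedg : EdgStmt) (hwild : WildStmt)
    (hseq : SeqStmt) (hcomp : CompStmt) :
    ¬ (∀ (K : Type) [TopologicalSpace K] [CompactSpace K] [T2Space K],
      (⨆ (g : C(K, ℝ) → ℝ) (_ : @Continuous C(K, ℝ) ℝ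
          (TopologicalSpace.induced (fun (f : C(K, ℝ)) (x : K) => f x) inferInstance) _ g),
          MeasurableSpace.comap g (borel ℝ))
        = (⨆ (g : C(K, ℝ) → ℝ) (_ : @Continuous C(K, ℝ) ℝ
          (⨅ (φ : C(K, ℝ) →L[ℝ] ℝ), TopologicalSpace.induced (⇑φ) inferInstance) _ g),
          MeasurableSpace.comap g (borel ℝ)) →
      ⋂₀ {S : Set (C(K, ℝ) →L[ℝ] ℝ) |
          convexHull ℝ {φ : C(K, ℝ) →L[ℝ] ℝ | ∃ x : K, ∀ f : C(K, ℝ), φ f = f x} ⊆ S ∧
          ∀ (u : ℕ → C(K, ℝ) →L[ℝ] ℝ) (φ : C(K, ℝ) →L[ℝ] ℝ), (∀ n, u n ∈ S) →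
            (∀ f : C(K, ℝ), Filter.Tendsto (fun n => u n f) Filter.atTop (nhds (φ f))) →
            φ ∈ S}
        = {φ : C(K, ℝ) →L[ℝ] ℝ | (∀ f : C(K, ℝ), 0 ≤ f → 0 ≤ φ f) ∧ φ 1 = 1}) := by
  intro H
  have hev : ∀ x : K, @Measurable C(K, ℝ) ℝ
      (⨆ (g : C(K, ℝ) → ℝ) (_ : @Continuous C(K, ℝ) ℝ
          (TopologicalSpace.induced (fun (f : C(K, ℝ)) (x : K) => f x) inferInstance) _ g),
          MeasurableSpace.comap g (borel ℝ)) _ (fun f : C(K, ℝ) => f x) := by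
    intro x
    have hc : @Continuous C(K, ℝ) ℝ
        (TopologicalSpace.induced (fun (f : C(K, ℝ)) (x : K) => f x) inferInstance) _
        (fun f : C(K, ℝ) => f x) := by
      let _ : TopologicalSpace C(K, ℝ) :=
        TopologicalSpace.induced (fun (f : C(K, ℝ)) (x : K) => f x) inferInstance
      exact (continuous_apply x).comp continuous_induced_dom
    have h1 : MeasurableSpace.comap (fun f : C(K, ℝ) => f x) (borel ℝ) ≤
        (⨆ (g : C(K, ℝ) → ℝ) (_ : @Continuous C(K, ℝ) ℝ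
          (TopologicalSpace.induced (fun (f : C(K, ℝ)) (x : K) => f x) inferInstance) _ g),
          MeasurableSpace.comap g (borel ℝ)) :=
      le_iSup₂_of_le (fun f : C(K, ℝ) => f x) hc le_rfl
    intro s hs
    refine h1 _ ⟨s, ?_, rfl⟩
    rw [← BorelSpace.measurable_eq (α := ℝ)]
    exact hs
  have hφ := hmeas _ hev
  have hBa : (⨆ (g : C(K, ℝ) → ℝ) (_ : @Continuous C(K, ℝ) ℝ
          (TopologicalSpace.induced (fun (f : C(K, ℝ)) (x : K) => f x) inferInstance) _ g),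
          MeasurableSpace.comap g (borel ℝ))
        = (⨆ (g : C(K, ℝ) → ℝ) (_ : @Continuous C(K, ℝ) ℝ
          (⨅ (φ : C(K, ℝ) →L[ℝ] ℝ), TopologicalSpace.induced (⇑φ) inferInstance) _ g),
          MeasurableSpace.comap g (borel ℝ)) := by
    apply le_antisymm
    · refine iSup₂_le fun g hg => ?_
      refine le_iSup₂_of_le g ?_ le_rfl
      have h3 : @Continuous C(K, ℝ) (K → ℝ)
          (⨅ (φ : C(K, ℝ) →L[ℝ] ℝ), TopologicalSpace.induced (⇑φ) inferInstance) _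
          (fun (f : C(K, ℝ)) (x : K) => f x) := by
        refine @continuous_pi C(K, ℝ) K (fun _ => ℝ)
          (⨅ (φ : C(K, ℝ) →L[ℝ] ℝ), TopologicalSpace.induced (⇑φ) inferInstance) _ _ fun x => ?_
        have h2 : (⨅ (φ : C(K, ℝ) →L[ℝ] ℝ), TopologicalSpace.induced (⇑φ) inferInstance) ≤
            TopologicalSpace.induced (fun f : C(K, ℝ) => f x) inferInstance :=
          iInf_le_of_le (ContinuousMap.evalCLM ℝ x) le_rfl
        exact continuous_iff_le_induced.2 h2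
      exact continuous_le_dom (continuous_iff_le_induced.1 h3) hg
    · refine iSup₂_le fun g hg => ?_
      have := hedg C(K, ℝ) inferInstance inferInstance _ hφ g hg
      rintro _ ⟨s, hs, rfl⟩
      refine this ?_
      rw [BorelSpace.measurable_eq (α := ℝ)]
      exact hs
  have h1 := H K hBa
  obtain ⟨φ, hpos, h1φ, hw⟩ := hwild
  have hmem : φ ∈ {φ : C(K, ℝ) →L[ℝ] ℝ | (∀ f : C(K, ℝ), 0 ≤ f → 0 ≤ φ f) ∧ φ 1 = 1} :=
    ⟨hpos, h1φ⟩
  rw [← h1] at hmem
  obtain ⟨X, m, hm⟩ := hseq φ hmem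
  have hU := hcomp.2.2.2.2 X m
  exact absurd (hw X m hU) (not_le.2 (hm hU))

end Pool.Agent.Helper7_BAI
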