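import Mathlib
import Pool.Agent.Helper7_BAI.Stmt

/-!
# Squad BAI, module COMP: topology of the space
-/

set_option autoImplicit false

open MeasureTheory Filter Topology

namespace Pool.Agent.Helper7_BAI

theorem finite_level (m : ℕ) : {j : J | j.1 < m}.Finite := by
  have h : {j : J | j.1 < m} ⊆ ⋃ n ∈ Finset.range m,
      Set.range (fun c : {c : Finset (Fin n → Bool) // c.card ≤ n ^ 2} => (⟨n, c⟩ : J)) := by
    rintro ⟨n, c⟩ hj
    simp only [Set.mem_iUnion, Finset.mem_range]
    exact ⟨n, hj, c, rfl⟩
  refine Set.Finite.subset ?_ h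
  refine Set.Finite.biUnion (Finset.finite_toSet (Finset.range m)) ?_
  intro n _
  exact Set.finite_range _

theorem isClopen_bit {D : Type} (d : D) (b : Bool) : IsClopen {y : D → Bool | y d = b} :=
  (isClopen_discrete ({b} : Set Bool)).preimage (continuous_apply d)

theorem isClopen_lev (m : ℕ) :
    IsClopen {y : B → Bool | ∀ j : J, y (Sum.inr j) = true → m ≤ j.1} := by
  have h : {y : B → Bool | ∀ j : J, y (Sum.inr j) = true → m ≤ j.1} =
      ⋂ j ∈ {j : J | j.1 < m}, {y : B → Bool | y (Sum.inr j) = false} := by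
    ext y
    simp only [Set.mem_ofPred_eq, Set.mem_iInter]
    constructor
    · intro h j hj
      by_contra hc
      have := h j (by simpa using hc)
      omega
    · intro h j hj
      by_contra hc
      have := h j (by omega)
      rw [hj] at this
      exact absurd this (by decide)
  rw [h]
  exact (finite_level m).isClopen_biInter fun j _ => isClopen_bit _ _

theorem isClopen_agree (i : ℕ) (x : ℕ → Bool) :
    IsClopen {y : B → Bool | ∀ l : ℕ, l < i → y (Sum.inl l) = x l} := by
  have h : {y : B → Bool | ∀ l : ℕ, l < i → y (Sum.inl l) = x l} =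
      ⋂ l ∈ Set.Iio i, {y : B → Bool | y (Sum.inl l) = x l} := by
    ext y
    simp only [Set.mem_ofPred_eq, Set.mem_iInter, Set.mem_Iio]
  rw [h]
  exact (Set.finite_Iio i).isClopen_biInter fun j _ => isClopen_bit _ _

theorem G_open (X : T) : IsOpen (G X) := by
  have h : G X = (⋃ i : ℕ, {y : B → Bool | ∀ j : J, y (Sum.inr j) = true → i + 2 ≤ j.1} ∩
      {y : B → Bool | ∀ l : ℕ, l < i + 2 → y (Sum.inl l) = X i l}) ∪
      ⋃ j ∈ {j : J | ∃ i ≤ j.1, res j.1 (X i) ∉ j.2.1}, {y : B → Bool | y (Sum.inr j) = true} := by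
    ext y
    simp only [G, Set.mem_ofPred_eq, Set.mem_union, Set.mem_iUnion, Set.mem_inter_iff]
    constructor
    · rintro (h | ⟨j, hj, h⟩)
      · exact Or.inl h
      · exact Or.inr ⟨j, h, hj⟩
    · rintro (h | ⟨j, h, hj⟩)
      · exact Or.inl h
      · exact Or.inr ⟨j, hj, h⟩
  rw [h]
  refine IsOpen.union ?_ ?_
  · exact isOpen_iUnion fun i => ((isClopen_lev _).inter (isClopen_agree _ _)).isOpen
  · exact isOpen_biUnion fun j _ => (isClopen_bit _ _).isOpen

theorem Yc_closed : IsClosed Yc := by
  have h : Yc = ⋂ j : J, ⋂ j' : J, ⋂ _ : j ≠ j',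
      ({y : B → Bool | y (Sum.inr j) = true} ∩ {y : B → Bool | y (Sum.inr j') = true})ᶜ := by
    ext y
    simp only [Yc, Set.mem_ofPred_eq, Set.mem_iInter, Set.mem_compl_iff, Set.mem_inter_iff, not_and]
    constructor
    · intro h j j' hne h1 h2
      exact hne (h j j' h1 h2)
    · intro h j j' h1 h2
      by_contra hne
      exact h j j' hne h1 h2
  rw [h]
  refine isClosed_iInter fun j => isClosed_iInter fun j' => isClosed_iInter fun _ => ?_
  exact ((isClopen_bit _ _).inter (isClopen_bit _ _)).compl.isClosed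

theorem KSet_closed : IsClosed KSet := by
  have h : KSet = (Prod.fst ⁻¹' Yc) ∩ ⋂ X : T,
      ((Prod.snd ⁻¹' {z : T → Bool | z X = false}) ∪ (Prod.fst ⁻¹' (G X)ᶜ)) := by
    ext k
    simp only [KSet, Set.mem_ofPred_eq, Set.mem_inter_iff, Set.mem_iInter, Set.mem_union,
      Set.mem_preimage, Set.mem_compl_iff]
    refine and_congr_right fun _ => forall_congr' fun X => ?_
    by_cases hX : k.2 X = true
    · simp [hX]
    · simp [hX]
  rw [h]
  refine (Yc_closed.preimage continuous_fst).inter (isClosed_iInter fun X => ?_)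
  exact (((isClopen_bit _ _).isClosed).preimage continuous_snd).union
    ((G_open X).isClosed_compl.preimage continuous_fst)

instance instCompactK : CompactSpace K := isCompact_iff_compactSpace.1 KSet_closed.isCompact

instance instT2K : T2Space K := inferInstance

theorem Uset_clopen (X : T) (m : ℕ) : IsClopen (Uset X m) := by
  have h : Uset X m = (fun k : K => k.1.2) ⁻¹' {z : T → Bool | z X = true} ∩
      (fun k : K => k.1.1) ⁻¹' {y : B → Bool | ∀ j : J, y (Sum.inr j) = true → m ≤ j.1} := rfl
  rw [h]
  exact ((isClopen_bit _ _).preimage (continuous_snd.comp continuous_subtype_val)).inter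
    ((isClopen_lev m).preimage (continuous_fst.comp continuous_subtype_val))

theorem comp : CompStmt :=
  ⟨G_open, Yc_closed, KSet_closed, finite_level, Uset_clopen⟩

/-- A point of K: everything off. -/
theorem exists_K : ∃ k : K, k.1.1 = (fun _ => false) ∧ k.1.2 = fun _ => false :=
  ⟨⟨(fun _ => false, fun _ => false), ⟨fun _ _ h => absurd h (by simp), fun _ h => absurd h (by simp)⟩⟩,
    rfl, rfl⟩

instance instNonemptyK : Nonempty K := ⟨exists_K.choose⟩

end Pool.Agent.Helper7_BAI
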